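import Pool.Agent.J6H78.GR.Chk

/-!
# The finite calculations for some primes
-/

set_option autoImplicit false

namespace Pool.Agent.J6H78.GR

set_option maxRecDepth 100000 in
lemma tests_11 : tests 11 = true := by decide +kernel

set_option maxRecDepth 100000 in
lemma tests_23 : tests 23 = true := by decide +kernel

set_option maxRecDepth 100000 in
lemma tests_29 : tests 29 = true := by decide +kernel

set_option maxRecDepth 100000 in
lemma tests_41 : tests 41 = true := by decide +kernel

set_option maxRecDepth 100000 in
lemma tests_47 : tests 47 = true := by decide +kernel

set_option maxRecDepth 100000 in
lemma tests_59 : tests 59 = true := by decide +kernel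

set_option maxRecDepth 100000 in
lemma tests_83 : tests 83 = true := by decide +kernel

set_option maxRecDepth 100000 in
lemma tests_101 : tests 101 = true := by decide +kernel

set_option maxRecDepth 100000 in
lemma tests_113 : tests 113 = true := by decide +kernel

set_option maxRecDepth 100000 in
lemma tests_131 : tests 131 = true := by decide +kernel

set_option maxRecDepth 100000 in
lemma tests_137 : tests 137 = true := by decide +kernel

set_option maxRecDepth 100000 in
lemma tests_149 : tests 149 = true := by decide +kernel

set_option maxRecDepth 100000 in
lemma tests_167 : tests 167 = true := by decide +kernel

set_option maxRecDepth 100000 in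
lemma tests_173 : tests 173 = true := by decide +kernel

set_option maxRecDepth 100000 in
lemma tests_191 : tests 191 = true := by decide +kernel

set_option maxRecDepth 100000 in
lemma tests_227 : tests 227 = true := by decide +kernel

set_option maxRecDepth 100000 in
lemma tests_239 : tests 239 = true := by decide +kernel

set_option maxRecDepth 100000 in
lemma tests_257 : tests 257 = true := by decide +kernel

set_option maxRecDepth 100000 in
lemma tests_263 : tests 263 = true := by decide +kernel

end Pool.Agent.J6H78.GR
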