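import Pool.Agent.J6H78.GR.Chk

/-!
# The finite calculations for some primes
-/

set_option autoImplicit false

namespace Pool.Agent.J6H78.GR

set_option maxRecDepth 100000 in
lemma tests_281 : tests 281 = true := by decide +kernel

set_option maxRecDepth 100000 in
lemma tests_293 : tests 293 = true := by decide +kernel

set_option maxRecDepth 100000 in
lemma tests_311 : tests 311 = true := by decide +kernel

set_option maxRecDepth 100000 in
lemma tests_317 : tests 317 = true := by decide +kernel

set_option maxRecDepth 100000 in
lemma tests_347 : tests 347 = true := by decide +kernel

end Pool.Agent.J6H78.GR
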