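import Pool.Agent.J6H78.GR.Low
import Pool.Agent.J6H78.GR.TabA
import Pool.Agent.J6H78.GR.TabB
import Pool.Agent.J6H78.GR.TabC

/-!
# All primes `p ≡ 2, 5` modulo `9` with `5 < p < 400`
-/

set_option autoImplicit false

namespace Pool.Agent.J6H78.GR

open Finset Polynomial Pool.Agent.Y18.GX
open Pool.Agent.Results.MP_c2a07f_nt.FiveAndPowersOfThree (genBernoulli lValue part_one lValue_eq unit_rat)

/-- the primes -/
def primes : List ℕ := [11, 23, 29, 41, 47, 59, 83, 101, 113, 131, 137, 149, 167, 173, 191, 227, 239, 257, 263, 281, 293, 311, 317, 347, 353, 383, 389]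

lemma mem_primes : ∀ p, p < 400 → 5 < p → (p % 9 = 2 ∨ p % 9 = 5) → p.Prime → p ∈ primes := by
  have h : ∀ p, p < 400 → 5 < p → (p % 9 = 2 ∨ p % 9 = 5) → p ∉ primes → p.minFac < p := by
    decide +kernel
  intro p h1 h2 h3 h4
  by_contra h5
  have h6 := h p h1 h2 h3 h5
  rw [h4.minFac_eq] at h6
  exact lt_irrefl _ h6

lemma tests_all : ∀ p ∈ primes, tests p = true := by
  intro p hp
  simp only [primes, List.mem_cons, List.not_mem_nil, or_false] at hp
  rcases hp with rfl | rfl | rfl | rfl | rfl | rfl | rfl | rfl | rfl | rfl | rfl | rfl | rfl | rfl | rfl | rfl | rfl | rfl | rfl | rfl | rfl | rfl | rfl | rfl | rfl | rfl | rfl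
  · exact tests_11
  · exact tests_23
  · exact tests_29
  · exact tests_41
  · exact tests_47
  · exact tests_59
  · exact tests_83
  · exact tests_101
  · exact tests_113
  · exact tests_131
  · exact tests_137
  · exact tests_149
  · exact tests_167
  · exact tests_173
  · exact tests_191
  · exact tests_227
  · exact tests_239
  · exact tests_257
  · exact tests_263
  · exact tests_281
  · exact tests_293
  · exact tests_311
  · exact tests_317
  · exact tests_347
  · exact tests_353
  · exact tests_383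
  · exact tests_389

/-- all values -/
lemma all {p : ℕ} (hp : p.Prime) (hp5 : 5 < p) (hp400 : p < 400) (hp9 : p % 9 = 2 ∨ p % 9 = 5) {K m : ℕ}
    (hm1 : 1 ≤ m) (hmp : m ≤ p - 1) (ψ : DirichletCharacter ℂ (3 ^ K)) (hprim : ψ.IsPrimitive)
    (hpar : ψ (-1) = (-1) ^ m) (hK0 : K = 0 → m ≠ p - 1 ∧ (p, m) ∉ ex0) (hK1 : K = 1 → (p, m) ∉ ex1) :
    UnitAt p (lValue p m ψ) := by
  obtain ⟨t2, t1, t0⟩ := tests_spec (tests_all p (mem_primes p hp400 hp5 hp9 hp))
  have hmp' : m < p := by omega
  rcases Nat.lt_or_ge K 2 with hK | hK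
  · rcases Nat.lt_or_ge K 1 with hK' | hK'
    · have : K = 0 := by omega
      subst this
      obtain ⟨h1, h2⟩ := hK0 rfl
      exact zero hp (by omega) m hm1 hmp' h1 (fun he => t0 m hm1 (by omega) he h2) ψ hpar
    · have : K = 1 := by omega
      subst this
      exact one hp (by omega) (by omega) m hm1 hmp' (fun ho => t1 m hmp ho (hK1 rfl)) ψ hprim hpar
  · exact big hp hp9 (by omega) K m (3 ^ K) (one_mul _).symm hK hm1 hmp' (t2 m K hm1 hmp hK) ψ
      (by rw [DirichletCharacter.isPrimitive_def] at hprim; rw [hprim]) hpar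

end Pool.Agent.J6H78.GR
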