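import Pool.Agent.J6H78.GR.Small

/-!
# The finite calculations
-/

set_option autoImplicit false

namespace Pool.Agent.J6H78.GR

/-- the residue of `x / 3 ^ K` modulo `p` -/
def res (p K x : ℕ) : ℕ := x * (3 ^ K) ^ (p - 2) % p

/-- the test of the class of `b` -/
def tst (p K m b : ℕ) : Bool :=
  let r0 := res p K b
  let r1 := res p K (b + 3 ^ (K - 1))
  let r2 := res p K (b + 3 ^ (K - 1) * 2)
  Nat.ble (b + 1) (3 ^ (K - 1)) && Nat.beq (b % 3) 1 &&
  Nat.beq ((3 ^ K * r0) % p) (b % p) &&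
  Nat.beq ((3 ^ K * r1) % p) ((b + 3 ^ (K - 1)) % p) &&
  Nat.beq ((3 ^ K * r2) % p) ((b + 3 ^ (K - 1) * 2) % p) &&
  !(Nat.beq (ps (m - 1) r0 % p) (ps (m - 1) r1 % p) && Nat.beq (ps (m - 1) r1 % p) (ps (m - 1) r2 % p))

/-- the test for the conductor `3 ^ K`: either `K` is large or one of a few classes is good -/
def tstK (p m K : ℕ) : Bool :=
  Nat.ble (m * 9) (3 ^ K) || tst p K m 1 || tst p K m 4 || tst p K m 7

/-- the test for `p` and `m` -/
def tstM (p m : ℕ) : Bool :=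
  tstK p m 2 && tstK p m 3 && tstK p m 4 && tstK p m 5 && tstK p m 6 && tstK p m 7 && Nat.ble (m * 9) (3 ^ 8)

/-- all `1 ≤ m < p` -/
def chk (p : ℕ) : ℕ → Bool
  | 0 => true
  | m + 1 => tstM p (m + 1) && chk p m

lemma chk_spec {p M : ℕ} (h : chk p M = true) : ∀ m, 1 ≤ m → m ≤ M → tstM p m = true := by
  induction M with
  | zero => intro m h1 h2; omega
  | succ M ih =>
    rw [chk, Bool.and_eq_true] at h
    intro m h1 h2
    rcases Nat.lt_or_ge M m with h3 | h3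
    · have : m = M + 1 := by omega
      rw [this]
      exact h.1
    · exact ih h.2 m h1 h3

lemma tstK_spec {p m K : ℕ} (h : tstK p m K = true) : m * 9 ≤ 3 ^ K ∨ ∃ b, tst p K m b = true := by
  unfold tstK at h
  simp only [Bool.or_eq_true, Nat.ble_eq] at h
  rcases h with ((h | h) | h) | h
  · exact Or.inl h
  · exact Or.inr ⟨_, h⟩
  · exact Or.inr ⟨_, h⟩
  · exact Or.inr ⟨_, h⟩

lemma tstM_spec {p m : ℕ} (h : tstM p m = true) (K : ℕ) (hK : 2 ≤ K) :
    m * 9 ≤ 3 ^ K ∨ ∃ b, tst p K m b = true := by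
  unfold tstM at h
  simp only [Bool.and_eq_true, Nat.ble_eq] at h
  obtain ⟨⟨⟨⟨⟨⟨h2, h3⟩, h4⟩, h5⟩, h6⟩, h7⟩, h8⟩ := h
  rcases Nat.lt_or_ge K 8 with h9 | h9
  · have : K = 2 ∨ K = 3 ∨ K = 4 ∨ K = 5 ∨ K = 6 ∨ K = 7 := by omega
    rcases this with rfl | rfl | rfl | rfl | rfl | rfl
    · exact tstK_spec h2
    · exact tstK_spec h3
    · exact tstK_spec h4
    · exact tstK_spec h5
    · exact tstK_spec h6
    · exact tstK_spec h7
  · exact Or.inl (h8.trans (Nat.pow_le_pow_right (by norm_num) h9))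

/-- membership of `(p, m)` in a list -/
def isEx : List (ℕ × ℕ) → ℕ → ℕ → Bool
  | [], _, _ => false
  | x :: l, p, m => (Nat.beq x.1 p && Nat.beq x.2 m) || isEx l p m

lemma isEx_spec {l : List (ℕ × ℕ)} {p m : ℕ} (h : isEx l p m = true) : (p, m) ∈ l := by
  induction l with
  | nil => simp [isEx] at h
  | cons x l ih =>
    rw [isEx, Bool.or_eq_true, Bool.and_eq_true, Nat.beq_eq, Nat.beq_eq] at h
    rcases h with ⟨h1, h2⟩ | h
    · rw [← h1, ← h2]
      exact List.mem_cons_self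
    · exact List.mem_cons_of_mem _ (ih h)

/-- the pairs `(p, m)` which are left out for the conductor `3` -/
def ex1 : List (ℕ × ℕ) := [(23, 17), (47, 13), (113, 55), (257, 101), (263, 81), (281, 131), (281, 261),
  (317, 101), (317, 217), (317, 265), (347, 295), (353, 291)]

/-- the irregular pairs `(p, m)` -/
def ex0 : List (ℕ × ℕ) := [(59, 44), (101, 68), (131, 22), (149, 130), (257, 164), (263, 100), (293, 156),
  (311, 292), (347, 280), (353, 186), (353, 300), (389, 200)]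

/-- the test for the conductor `3` -/
def tst1 (p m : ℕ) : Bool :=
  !(Nat.beq (ps (m - 1) ((p + 1) / 3) % p) (ps (m - 1) ((2 * p + 2) / 3) % p))

/-- all odd `m ≤ 2 M + 1` -/
def chk1 (p : ℕ) : ℕ → Bool
  | 0 => tst1 p 1
  | M + 1 => (isEx ex1 p (2 * M + 3) || tst1 p (2 * M + 3)) && chk1 p M

lemma chk1_spec {p M : ℕ} (h : chk1 p M = true) : ∀ m, m % 2 = 1 → m ≤ 2 * M + 1 → (p, m) ∉ ex1 →
    tst1 p m = true := by
  induction M with
  | zero =>
    intro m h1 h2 _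
    have : m = 1 := by omega
    rw [this]
    exact h
  | succ M ih =>
    rw [chk1, Bool.and_eq_true, Bool.or_eq_true] at h
    intro m h1 h2 h4
    rcases Nat.lt_or_ge (2 * M + 1) m with h3 | h3
    · have : m = 2 * M + 3 := by omega
      subst this
      exact h.1.resolve_left fun h5 => h4 (isEx_spec h5)
    · exact ih h.2 m h1 h3 h4

/-- the test for the conductor `1` -/
def tst0 (p m : ℕ) : Bool := !(Nat.beq (ps m p % p ^ 2) 0)

/-- all even `2 ≤ m ≤ 2 M` -/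
def chk0 (p : ℕ) : ℕ → Bool
  | 0 => true
  | M + 1 => (isEx ex0 p (2 * M + 2) || tst0 p (2 * M + 2)) && chk0 p M

lemma chk0_spec {p M : ℕ} (h : chk0 p M = true) : ∀ m, m % 2 = 0 → 1 ≤ m → m ≤ 2 * M → (p, m) ∉ ex0 →
    tst0 p m = true := by
  induction M with
  | zero => intro m h1 h2 h3; omega
  | succ M ih =>
    rw [chk0, Bool.and_eq_true, Bool.or_eq_true] at h
    intro m h1 h2 h3 h4
    rcases Nat.lt_or_ge (2 * M) m with h5 | h5
    · have : m = 2 * M + 2 := by omega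
      subst this
      exact h.1.resolve_left fun h6 => h4 (isEx_spec h6)
    · exact ih h.2 m h1 h2 h5 h4

/-- all tests for `p` -/
def tests (p : ℕ) : Bool := chk p (p - 1) && chk1 p (p / 2) && chk0 p (p / 2 - 1)

lemma tests_spec {p : ℕ} (h : tests p = true) :
    (∀ m K, 1 ≤ m → m ≤ p - 1 → 2 ≤ K → m * 9 ≤ 3 ^ K ∨ ∃ b, tst p K m b = true) ∧
    (∀ m, m ≤ p - 1 → m % 2 = 1 → (p, m) ∉ ex1 → tst1 p m = true) ∧
    (∀ m, 1 ≤ m → m + 1 < p → m % 2 = 0 → (p, m) ∉ ex0 → tst0 p m = true) := by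
  unfold tests at h
  simp only [Bool.and_eq_true] at h
  obtain ⟨⟨h1, h2⟩, h3⟩ := h
  refine ⟨fun m K hm hmp hK => tstM_spec (chk_spec h1 m hm hmp) K hK, fun m hmp hm he =>
    chk1_spec h2 m hm (by omega) he, fun m h1 hmp hm he => chk0_spec h3 m hm h1 (by omega) he⟩

end Pool.Agent.J6H78.GR
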