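import Pool.Agent.J6H78.GR.Main

/-!
# The conductors `3` and `1`
-/

set_option autoImplicit false

namespace Pool.Agent.J6H78.GR

open Finset Polynomial Pool.Agent.Y18.GX
open Pool.Agent.Results.MP_c2a07f_nt.FiveAndPowersOfThree (genBernoulli lValue part_one lValue_eq unit_rat)

/-- `d ^ m F (j / d)` for `F = m! (B_m(x) - B_m)` -/
noncomputable def ZZ (m d j : ℕ) : ℤ := ∑ i ∈ range m, zc m i * (d ^ i * j ^ (m - i) : ℕ)

lemma ZZ_cast {F : Type*} [Field F] (m d j : ℕ) (hd : (d : F) ≠ 0) :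
    ((ZZ m d j : ℤ) : F) = (d : F) ^ m * aeval ((j : F) / d) (FF m) := by
  rw [ZZ, FF, map_sum, Finset.mul_sum]
  push_cast
  refine Finset.sum_congr rfl fun i hi => ?_
  have hi' := mem_range.1 hi
  rw [aeval_monomial, div_pow]
  have h1 : (d : F) ^ m = (d : F) ^ i * (d : F) ^ (m - i) := by
    rw [← pow_add]
    congr 1
    omega
  rw [h1]
  simp only [algebraMap_int_eq, eq_intCast]
  field_simp

lemma psi_two (ψ : DirichletCharacter ℂ (3 ^ 1)) (hprim : ψ.IsPrimitive) : ψ 2 = -1 := by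
  have hψ1 : ψ ≠ 1 := by
    intro h
    rw [h, DirichletCharacter.isPrimitive_def, DirichletCharacter.conductor_one] at hprim
    norm_num at hprim
  have h2 : ψ 2 ^ 2 = 1 := by
    rw [← map_pow]
    have : (2 : ZMod (3 ^ 1)) ^ 2 = 1 := by decide
    rw [this, map_one]
  have h2' : (ψ 2 - 1) * (ψ 2 + 1) = 0 := by linear_combination h2
  rcases mul_eq_zero.1 h2' with h3 | h3
  · rw [sub_eq_zero] at h3
    exfalso
    apply hψ1
    ext U
    have h4 : ∀ x : ZMod (3 ^ 1), IsUnit x → x = 1 ∨ x = 2 := by decide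
    rcases h4 U U.isUnit with h5 | h5
    · rw [h5, map_one, MulChar.one_apply isUnit_one]
    · rw [h5, h3]
      have : IsUnit (2 : ZMod (3 ^ 1)) := h5 ▸ U.isUnit
      rw [MulChar.one_apply this]
  · exact eq_neg_of_add_eq_zero_left h3

/-- the conductor `3` -/
lemma one {p : ℕ} (hp : p.Prime) (hp3 : p % 3 = 2) (h5 : 5 ≤ p) (m : ℕ) (hm1 : 1 ≤ m) (hmp : m < p)
    (ht : m % 2 = 1 → tst1 p m = true)
    (ψ : DirichletCharacter ℂ (3 ^ 1)) (hprim : ψ.IsPrimitive) (hpar : ψ (-1) = (-1) ^ m) :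
    UnitAt p (lValue p m ψ) := by
  have hpF : Fact p.Prime := ⟨hp⟩
  have hψ2 := psi_two ψ hprim
  have hneg : (-1 : ZMod (3 ^ 1)) = 2 := by decide
  rw [hneg, hψ2] at hpar
  have hodd : m % 2 = 1 := by
    by_contra hcon
    have h1 : Even m := Nat.even_iff.2 (by omega)
    rw [h1.neg_one_pow] at hpar
    norm_num at hpar
  have ht' := ht hodd
  have hpz : ((p : ℕ) : ZMod (3 ^ 1)) = 2 := by
    have h1 : ((p : ℕ) : ZMod (3 ^ 1)) = ((2 : ℕ) : ZMod (3 ^ 1)) := by
      rw [ZMod.natCast_eq_natCast_iff]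
      exact hp3
    rw [h1]
    decide
  have h33 : (3 : ℕ) ^ 1 ≠ 1 := by norm_num
  have hne : ¬ (ps (m - 1) ((p + 1) / 3) % p = ps (m - 1) ((2 * p + 2) / 3) % p) := by
    unfold tst1 at ht'
    rw [Bool.not_eq_true'] at ht'
    exact Nat.ne_of_beq_eq_false ht'
  have hp3' : ((3 : ℕ) : ZMod p) ≠ 0 := by
    intro h
    have := (ZMod.natCast_eq_zero_iff 3 p).1 h
    have := Nat.le_of_dvd (by norm_num) this
    omega
  -- the integer
  set Z : ℤ := ZZ m 3 1 - ZZ m 3 2 with hZ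
  have hZp : ((Z : ℤ) : ZMod p) ≠ 0 := by
    rw [hZ]
    push_cast
    rw [ZZ_cast m 3 1 hp3', ZZ_cast m 3 2 hp3']
    have e1 : ((1 : ℕ) : ZMod p) / ((3 : ℕ) : ZMod p) = (((p + 1) / 3 : ℕ) : ZMod p) := by
      rw [div_eq_iff hp3', ← Nat.cast_mul]
      have : (p + 1) / 3 * 3 = p + 1 := by omega
      rw [this]
      simp
    have e2 : ((2 : ℕ) : ZMod p) / ((3 : ℕ) : ZMod p) = (((2 * p + 2) / 3 : ℕ) : ZMod p) := by
      rw [div_eq_iff hp3', ← Nat.cast_mul]
      have : (2 * p + 2) / 3 * 3 = 2 * p + 2 := by omega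
      rw [this]
      simp
    rw [e1, e2, FF_aeval_nat, FF_aeval_nat, ← mul_sub, ← mul_sub]
    refine mul_ne_zero (pow_ne_zero _ hp3') (mul_ne_zero (mul_ne_zero ?_ ?_) ?_)
    · intro h
      have h1 := (hp.dvd_factorial).1 ((ZMod.natCast_eq_zero_iff _ p).1 h)
      omega
    · intro h
      have := Nat.le_of_dvd (by omega) ((ZMod.natCast_eq_zero_iff _ p).1 h)
      omega
    · intro h
      apply hne
      exact (ZMod.natCast_eq_natCast_iff' _ _ _).1 (sub_eq_zero.1 h)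
  have hZpd : ¬ (p : ℤ) ∣ Z := fun h => hZp ((ZMod.intCast_zmod_eq_zero_iff_dvd Z p).2 h)
  have hZ0 : Z ≠ 0 := by
    intro h
    exact hZpd (h ▸ dvd_zero _)
  have hpZ : IsCoprime (p : ℤ) Z := by
    rw [Int.isCoprime_iff_gcd_eq_one]
    exact (Nat.Prime.coprime_iff_not_dvd hp).2 (fun h => hZpd (Int.natCast_dvd.2 h))
  -- the Euler factor
  have hE : ∃ e : ℤ, e ≠ 0 ∧ IsCoprime (p : ℤ) e ∧ (e : ℂ) = 1 - ψ (p : ZMod (3 ^ 1)) * (p : ℂ) ^ (m - 1) := by
    refine ⟨1 + (p : ℤ) ^ (m - 1), by positivity, ?_, ?_⟩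
    · rcases Nat.lt_or_ge m 2 with h2 | h2
      · have : m = 1 := by omega
        subst this
        have h6 : IsCoprime (p : ℤ) ((2 : ℕ) : ℤ) := by
          rw [Nat.isCoprime_iff_coprime]
          exact (Nat.coprime_primes hp Nat.prime_two).2 (by omega)
        have h7 : (1 + (p : ℤ) ^ (1 - 1)) = ((2 : ℕ) : ℤ) := by norm_num
        rw [h7]
        exact h6
      · refine ⟨-(p : ℤ) ^ (m - 2), 1, ?_⟩
        have : (p : ℤ) ^ (m - 1) = (p : ℤ) ^ (m - 2) * p := by
          rw [← pow_succ]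
          congr 1
          omega
        rw [this]
        ring
    · rw [hpz, hψ2]
      push_cast
      ring
  obtain ⟨e, he0, hep, he⟩ := hE
  have hb : IsCoprime (p : ℤ) (((3 * m * m.factorial : ℕ) : ℤ)) := by
    rw [Nat.isCoprime_iff_coprime, Nat.Prime.coprime_iff_not_dvd hp]
    intro h
    rcases hp.dvd_mul.1 h with h | h
    · rcases hp.dvd_mul.1 h with h | h
      · have := Nat.le_of_dvd (by norm_num) h
        omega
      · have := Nat.le_of_dvd (by omega) h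
        omega
    · have := (hp.dvd_factorial).1 h
      omega
  refine unit_rat (e * Z) ((3 * m * m.factorial : ℕ) : ℤ) (mul_ne_zero he0 hZ0) ?_ (hep.mul_right hpZ) hb ?_
  · have : 0 < 3 * m * m.factorial := Nat.mul_pos (by omega) (Nat.factorial_pos m)
    exact_mod_cast this.ne'
  rw [lValue_eq h33, ← he]
  have h0 : ψ ((0 : ℕ) : ZMod (3 ^ 1)) = 0 := by
    rw [Nat.cast_zero]
    exact DirichletCharacter.map_zero' ψ h33
  have h1 : ψ ((1 : ℕ) : ZMod (3 ^ 1)) = 1 := by rw [Nat.cast_one, map_one]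
  have h2 : ψ ((2 : ℕ) : ZMod (3 ^ 1)) = -1 := by
    have : ((2 : ℕ) : ZMod (3 ^ 1)) = 2 := by decide
    rw [this, hψ2]
  have hr : range (3 ^ 1) = {0, 1, 2} := by decide
  rw [hr, Finset.sum_insert (by decide), Finset.sum_insert (by decide), Finset.sum_singleton, h0, h1, h2]
  have hQ : (Z : ℚ) = 3 ^ m * ((m.factorial : ℚ) * ((Polynomial.bernoulli m).eval (1 / 3) -
      (Polynomial.bernoulli m).eval (2 / 3))) := by
    rw [hZ]
    push_cast
    rw [ZZ_cast (F := ℚ) m 3 1 (by norm_num), ZZ_cast (F := ℚ) m 3 2 (by norm_num), FF_eval_rat, FF_eval_rat]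
    push_cast
    ring
  have hC : (Z : ℂ) = 3 ^ m * ((m.factorial : ℂ) * ((((Polynomial.bernoulli m).eval (1 / 3) : ℚ) : ℂ) -
      (((Polynomial.bernoulli m).eval (2 / 3) : ℚ) : ℂ))) := by
    have := congrArg (fun x : ℚ => (x : ℂ)) hQ
    push_cast at this
    rw [this]
  have hmf : (m.factorial : ℂ) ≠ 0 := by exact_mod_cast m.factorial_ne_zero
  have hm0 : (m : ℂ) ≠ 0 := by
    have : m ≠ 0 := by omega
    exact_mod_cast this
  have h3m : (3 : ℂ) ^ m = 3 ^ (m - 1) * 3 := by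
    rw [← pow_succ]
    congr 1
    omega
  push_cast
  rw [hC, h3m]
  field_simp
  ring

/-- the conductor `1` -/
lemma zero {p : ℕ} (hp : p.Prime) (h5 : 5 ≤ p) (m : ℕ) (hm1 : 1 ≤ m) (hmp : m < p) (hm : m ≠ p - 1)
    (ht : m % 2 = 0 → tst0 p m = true)
    (ψ : DirichletCharacter ℂ (3 ^ 0)) (hpar : ψ (-1) = (-1) ^ m) :
    UnitAt p (lValue p m ψ) := by
  have hψ : ∀ x, ψ x = 1 := fun x => by
    have : x = 1 := Subsingleton.elim (α := ZMod 1) x 1
    rw [this, map_one]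
  rw [hψ] at hpar
  have hodd : p % 2 = 1 := (hp.eq_two_or_odd).resolve_left (by omega)
  have heven : m % 2 = 0 := by
    by_contra hcon
    have h1 : Odd m := Nat.odd_iff.2 (by omega)
    rw [h1.neg_one_pow] at hpar
    norm_num at hpar
  have ht' : ¬ ps m p % p ^ 2 = 0 := by
    have := ht heven
    unfold tst0 at this
    rw [Bool.not_eq_true'] at this
    exact Nat.ne_of_beq_eq_false this
  set Z : ℤ := zc (m + 1) m with hZ
  have hsum : ((m + 1).factorial : ℤ) * (m + 1 : ℕ) * (ps m p : ℤ) =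
      Z * p + (p : ℤ) ^ 2 * ∑ i ∈ range m, zc (m + 1) i * (p : ℤ) ^ (m - 1 - i) := by
    have h1 := FF_eval_nat (m + 1) p
    rw [Nat.add_sub_cancel] at h1
    rw [← h1, FF, eval_finsetSum, Finset.sum_range_succ, Finset.mul_sum, add_comm]
    congr 1
    · rw [eval_monomial]
      have : m + 1 - m = 1 := by omega
      rw [this, pow_one]
    · refine Finset.sum_congr rfl fun i hi => ?_
      have hi' := mem_range.1 hi
      rw [eval_monomial]
      have : m + 1 - i = 2 + (m - 1 - i) := by omega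
      rw [this, pow_add]
      ring
  have hcop : ∀ n : ℕ, n < p → ¬ p ∣ n.factorial := fun n hn h => by
    have := (hp.dvd_factorial).1 h
    omega
  have hZpd : ¬ (p : ℤ) ∣ Z := by
    rintro ⟨w, hw⟩
    apply ht'
    apply Nat.mod_eq_zero_of_dvd
    have h2 : ((p ^ 2 : ℕ) : ℤ) ∣ (((m + 1).factorial * (m + 1) * ps m p : ℕ) : ℤ) := by
      push_cast
      push_cast at hsum
      rw [hsum, hw]
      refine dvd_add ⟨w, by ring⟩ (dvd_mul_right _ _)
    have h3 : p ^ 2 ∣ (m + 1).factorial * (m + 1) * ps m p := Int.natCast_dvd_natCast.1 h2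
    refine Nat.Coprime.dvd_of_dvd_mul_left ?_ h3
    refine Nat.Coprime.pow_left 2 ?_
    rw [Nat.Prime.coprime_iff_not_dvd hp]
    intro h
    rcases hp.dvd_mul.1 h with h | h
    · exact hcop (m + 1) (by omega) h
    · have := Nat.le_of_dvd (by omega) h
      omega
  have hZ0 : Z ≠ 0 := by
    intro h
    exact hZpd (h ▸ dvd_zero _)
  have hpZ : IsCoprime (p : ℤ) Z := by
    rw [Int.isCoprime_iff_gcd_eq_one]
    exact (Nat.Prime.coprime_iff_not_dvd hp).2 (fun h => hZpd (Int.natCast_dvd.2 h))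
  have hE0 : (1 - (p : ℤ) ^ (m - 1)) ≠ 0 := by
    have h1 : 1 < p ^ (m - 1) := Nat.one_lt_pow (by omega) hp.one_lt
    have h2 : (1 : ℤ) < (p : ℤ) ^ (m - 1) := by exact_mod_cast h1
    omega
  have hEp : IsCoprime (p : ℤ) (1 - (p : ℤ) ^ (m - 1)) := by
    refine ⟨(p : ℤ) ^ (m - 2), 1, ?_⟩
    have : (p : ℤ) ^ (m - 1) = (p : ℤ) ^ (m - 2) * p := by
      rw [← pow_succ]
      congr 1
      omega
    rw [this]
    ring
  have hb : IsCoprime (p : ℤ) ((((m + 1).factorial * (m + 1) * m : ℕ) : ℤ)) := by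
    rw [Nat.isCoprime_iff_coprime, Nat.Prime.coprime_iff_not_dvd hp]
    intro h
    rcases hp.dvd_mul.1 h with h | h
    · rcases hp.dvd_mul.1 h with h | h
      · exact hcop (m + 1) (by omega) h
      · have := Nat.le_of_dvd (by omega) h
        omega
    · have := Nat.le_of_dvd (by omega) h
      omega
  refine unit_rat ((1 - (p : ℤ) ^ (m - 1)) * Z) (((m + 1).factorial * (m + 1) * m : ℕ) : ℤ) (mul_ne_zero hE0 hZ0) ?_
    (hEp.mul_right hpZ) hb ?_
  · have : 0 < (m + 1).factorial * (m + 1) * m :=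
      Nat.mul_pos (Nat.mul_pos (Nat.factorial_pos _) (by omega)) (by omega)
    exact_mod_cast this.ne'
  have hB : (Polynomial.bernoulli m).eval (1 : ℚ) = _root_.bernoulli m := by
    rw [Polynomial.bernoulli_eval_one, bernoulli_eq_bernoulli'_of_ne_one (by omega)]
  have hQ : (Z : ℚ) = ((m + 1).factorial : ℚ) * (_root_.bernoulli m * (m + 1)) := by
    rw [hZ, zc_spec (by omega)]
    rw [Nat.choose_succ_self_right]
    push_cast
    ring
  have hC : (Z : ℂ) = ((m + 1).factorial : ℂ) * (((_root_.bernoulli m : ℚ) : ℂ) * (m + 1)) := by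
    have := congrArg (fun x : ℚ => (x : ℂ)) hQ
    push_cast at this
    rw [this]
  have hmf : ((m + 1).factorial : ℂ) ≠ 0 := by exact_mod_cast (m + 1).factorial_ne_zero
  have hm0 : (m : ℂ) ≠ 0 := by
    have : m ≠ 0 := by omega
    exact_mod_cast this
  have hm1' : (m : ℂ) + 1 ≠ 0 := by
    have : m + 1 ≠ 0 := by omega
    exact_mod_cast this
  unfold lValue genBernoulli
  simp only [hψ, pow_zero, Icc_self, sum_singleton, Nat.cast_one, div_one, hB, one_pow, one_mul]
  push_cast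
  rw [hC]
  field_simp

end Pool.Agent.J6H78.GR
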