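import Pool.Agent.J6H78.GR.Chk
import Pool.Agent.Results.MP_c2a07f_nt.FiveAndPowersOfThree

/-!
# The values for all conductors `3 ^ K`
-/

set_option autoImplicit false

namespace Pool.Agent.J6H78.GR

open Finset Polynomial Pool.Agent.Y18.GX
open Pool.Agent.Results.MP_c2a07f_nt.FiveAndPowersOfThree (genBernoulli lValue part_one lValue_eq unit_rat)

/-- the units of the result file -/
abbrev UnitAt (p : ℕ) (z : ℂ) : Prop :=
  Pool.Agent.Results.MP_c2a07f_nt.FiveAndPowersOfThree.IsUnitAt p z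

lemma tst_spec {p K m b : ℕ} (h : tst p K m b = true) : ∃ r0 r1 r2 : ℕ, b < 3 ^ (K - 1) ∧ b % 3 = 1 ∧
    (3 ^ K * r0) % p = b % p ∧ (3 ^ K * r1) % p = (b + 3 ^ (K - 1)) % p ∧
    (3 ^ K * r2) % p = (b + 3 ^ (K - 1) * 2) % p ∧
    ¬ (ps (m - 1) r0 % p = ps (m - 1) r1 % p ∧ ps (m - 1) r1 % p = ps (m - 1) r2 % p) := by
  unfold tst at h
  simp only [Bool.and_eq_true, Nat.ble_eq, Nat.beq_eq, Bool.not_eq_true', Bool.and_eq_false_iff] at h
  obtain ⟨⟨⟨⟨⟨h1, h2⟩, h3⟩, h4⟩, h5⟩, h6⟩ := h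
  refine ⟨_, _, _, h1, h2, h3, h4, h5, ?_⟩
  rintro ⟨h7, h8⟩
  rcases h6 with h6 | h6
  · exact Nat.ne_of_beq_eq_false h6 h7
  · exact Nat.ne_of_beq_eq_false h6 h8

/-- the values for the conductors `3 ^ K`, `K ≥ 2` -/
lemma big {p : ℕ} (hp : p.Prime) (hp9 : p % 9 = 2 ∨ p % 9 = 5) (h5 : 5 ≤ p) (K m N : ℕ) (hN : N = 1 * 3 ^ K)
    (hK : 2 ≤ K) (hm1 : 1 ≤ m) (hmp : m < p)
    (ht : m * 9 ≤ 3 ^ K ∨ ∃ b, tst p K m b = true)
    (ψ : DirichletCharacter ℂ N) (hc : 3 ^ K ∣ ψ.conductor) (hpar : ψ (-1) = (-1) ^ m) :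
    UnitAt p (lValue p m ψ) := by
  subst hN
  have hpF : Fact p.Prime := ⟨hp⟩
  have hsq : p ^ 2 % 9 = 4 ∨ p ^ 2 % 9 = 7 := by
    rw [Nat.pow_mod]
    rcases hp9 with h | h <;> rw [h]
    · exact Or.inl rfl
    · exact Or.inr rfl
  have hge : 1 ≤ p ^ 2 := Nat.one_le_pow _ _ hp.pos
  by_cases hs : m * 9 ≤ 3 ^ K
  · refine part_one (p := p) hp h5 (Or.inr rfl) (N₁ := 1) (g := 2) (n := 1) (by norm_num)
      (fun h => hp.one_lt.ne' (Nat.dvd_one.1 h)) (by decide) (by norm_num) ?_ ?_ hm1 (by omega) ?_ ψ hc hpar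
    · rw [pow_one]
      omega
    · norm_num
      omega
    · have h1 : m * 1 * 3 ^ (2 * 1) = m * 9 := by norm_num
      rw [h1]
      exact hs
  · obtain ⟨b, hb⟩ := ht.resolve_left hs
    obtain ⟨r0, r1, r2, hb1, hb2, h0, h1, h2, hne⟩ := tst_spec hb
    have hm2 : m ≠ 1 := by
      rintro rfl
      apply hs
      calc 1 * 9 = 3 ^ 2 := by norm_num
        _ ≤ 3 ^ K := Nat.pow_le_pow_right (by norm_num) hK
    have hcop : Nat.Coprime 1 (3 ^ K) := Nat.coprime_one_left _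
    have hprim := snd_prim hcop Nat.prime_three hK one_ne_zero ψ hc
    have hN1 : 1 * 3 ^ K ≠ 1 := by
      rw [one_mul]
      exact (Nat.one_lt_pow (by omega) (by norm_num)).ne'
    have hψ1 : ψ ≠ 1 := by
      have : NeZero (1 * 3 ^ K) := ⟨by positivity⟩
      intro h
      rw [h, DirichletCharacter.conductor_one] at hc
      have := Nat.dvd_one.1 hc
      exact (Nat.one_lt_pow (by omega) (by norm_num : 1 < 3)).ne' this
    have hfst : ∀ a, fst hcop ψ a = 1 := fun a => by rw [Subsingleton.elim (α := ZMod 1) a 1, map_one]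
    have hsum : ∑ a ∈ range (1 * 3 ^ K), fst hcop ψ (a : ZMod 1) * snd hcop ψ (a : ZMod (3 ^ K)) = 0 := by
      rw [← sum_char (by positivity) ψ hψ1]
      exact Finset.sum_congr rfl fun a _ => (dec_nat hcop ψ a).symm
    have key := unit_gen hp (g := 2) (m := m) (fst hcop ψ) (snd hcop ψ) Nat.prime_three hK
      (fun a => by rw [hfst, one_pow]) hprim (fun h => hp.one_lt.ne' (Nat.dvd_one.1 h)) (by omega)
      (by rw [← dec_neg, hpar]) hm1 hmp
      (fun k _ _ χ₁ χ₂ _ h2' h3 => ⟨small hp9 (by omega) hK hm1 hmp b r0 r1 r2 hb1 hb2 h0 h1 h2 hne χ₁ χ₂ h2' h3,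
        fun h => absurd h hm2⟩) hsum
    simp only [← dec_nat] at key
    rw [lValue_eq hN1]
    exact key

end Pool.Agent.J6H78.GR
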