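import Pool.Agent.Y18.GX.Small

/-!
# Values of `m! (B_m(x) - B_m)` at integers as sums of powers
-/

set_option autoImplicit false

namespace Pool.Agent.J6H78.GR

open Finset Polynomial Pool.Agent.Y18.GX

/-- `0 ^ e + 1 ^ e + … + (r - 1) ^ e` -/
def ps (e : ℕ) : ℕ → ℕ
  | 0 => 0
  | r + 1 => ps e r + r ^ e

lemma FF_eval_zero (m : ℕ) : (FF m).eval 0 = 0 := by
  rw [FF, eval_finset_sum]
  refine Finset.sum_eq_zero fun i hi => ?_
  rw [eval_monomial, zero_pow, mul_zero]
  have := mem_range.1 hi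
  omega

lemma FF_eval_rat (m : ℕ) (x : ℚ) : aeval x (FF m) = ((m.factorial : ℕ) : ℚ) *
      ((Polynomial.bernoulli m).eval x - _root_.bernoulli m) := by
  have h2 := congrArg (fun f => f.eval x) (FF_map m)
  simp only [eval_mul, eval_C, eval_sub] at h2
  rw [← h2, eval_map, aeval_def]
  rfl

lemma bern_eval_nat (m : ℕ) (r : ℕ) : (Polynomial.bernoulli m).eval (r : ℚ) =
    _root_.bernoulli m + m * (ps (m - 1) r : ℚ) := by
  induction r with
  | zero => simp [ps, Polynomial.bernoulli_eval_zero]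
  | succ r ih =>
    have h1 := Polynomial.bernoulli_eval_one_add m (r : ℚ)
    push_cast
    rw [add_comm (r : ℚ) 1, h1, ih, ps]
    push_cast
    ring

lemma FF_eval_nat (m r : ℕ) : (FF m).eval (r : ℤ) = (m.factorial : ℤ) * m * (ps (m - 1) r : ℤ) := by
  have h1 : (((FF m).eval (r : ℤ) : ℤ) : ℚ) = aeval ((r : ℕ) : ℚ) (FF m) := by
    have := Polynomial.eval_intCast_map (Int.castRingHom ℚ) (FF m) (r : ℤ)
    rw [aeval_def, ← eval_map]
    simpa using this.symm
  have h2 : (((FF m).eval (r : ℤ) : ℤ) : ℚ) = (((m.factorial : ℤ) * m * (ps (m - 1) r : ℤ) : ℤ) : ℚ) := by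
    rw [h1, FF_eval_rat, bern_eval_nat]
    push_cast
    ring
  exact_mod_cast h2

lemma FF_aeval_nat {k : Type*} [CommRing k] (m r : ℕ) :
    aeval (r : k) (FF m) = (m.factorial : k) * m * (ps (m - 1) r : k) := by
  have h1 : aeval (r : k) (FF m) = (((FF m).eval (r : ℤ) : ℤ) : k) := by
    have := Polynomial.eval_intCast_map (Int.castRingHom k) (FF m) (r : ℤ)
    rw [aeval_def, ← eval_map]
    simpa using this
  rw [h1, FF_eval_nat]
  push_cast
  ring

end Pool.Agent.J6H78.GR
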