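import Pool.Agent.J6H78.GR.Pow

/-!
# Primes `p ≡ 2, 5` modulo `9`: the sums for the small conductors
-/

set_option autoImplicit false

namespace Pool.Agent.J6H78.GR

open Finset Polynomial Pool.Agent.Y18.GX

section
variable {k : Type*} [Field k] {p : ℕ} [Fact p.Prime] [CharP k p]

lemma eq_of_cube {ξ : k} (h3 : ξ ^ 3 = 1) (h1 : ξ ≠ 1) (hp : p % 3 = 2) (A B C : ℕ)
    (h : (A : k) + ξ * B + ξ ^ 2 * C = 0) : (A : k) = B ∧ (B : k) = C := by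
  have hq : ξ ^ 2 + ξ + 1 = 0 := by
    have h2 : (ξ - 1) * (ξ ^ 2 + ξ + 1) = 0 := by linear_combination h3
    rcases mul_eq_zero.1 h2 with h2 | h2
    · exact absurd (sub_eq_zero.1 h2) h1
    · exact h2
  have hfr : ξ ^ p = ξ ^ 2 := by
    have h4 : p = 3 * (p / 3) + 2 := by omega
    rw [h4, pow_add, pow_mul, h3, one_pow, one_mul]
  have h5 := congrArg (frobenius k p) h
  simp only [map_add, map_mul, map_pow, map_natCast, map_zero, frobenius_def, hfr] at h5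
  have h6 : (ξ - ξ ^ 2) * ((B : k) - C) = 0 := by
    linear_combination h - h5 + (C * ξ : k) * h3
  have h0 : ξ ≠ 0 := by
    rintro rfl
    norm_num at h3
  rcases mul_eq_zero.1 h6 with h7 | h7
  · exfalso
    have h8 : ξ * (1 - ξ) = 0 := by linear_combination h7
    rcases mul_eq_zero.1 h8 with h9 | h9
    · exact h0 h9
    · exact h1 (sub_eq_zero.1 h9).symm
  · have h8 : (B : k) = C := sub_eq_zero.1 h7
    refine ⟨?_, h8⟩
    rw [← h8] at h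
    linear_combination h - (B : k) * hq

omit [Fact p.Prime] in
lemma cast_eq_iff (a b : ℕ) : (a : k) = b ↔ a % p = b % p := CharP.natCast_eq_natCast k p

/-- the sums for the conductor `3 ^ K` do not vanish modulo `p` -/
lemma small {K m : ℕ} (hp9 : p % 9 = 2 ∨ p % 9 = 5) (hp2 : p ≠ 2) (hK : 2 ≤ K) (hm1 : 1 ≤ m)
    (hmp : m < p) (b r0 r1 r2 : ℕ) (hb : b < 3 ^ (K - 1)) (hb1 : b % 3 = 1)
    (h0 : (3 ^ K * r0) % p = b % p) (h1 : (3 ^ K * r1) % p = (b + 3 ^ (K - 1)) % p)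
    (h2 : (3 ^ K * r2) % p = (b + 3 ^ (K - 1) * 2) % p)
    (hne : ¬ (ps (m - 1) r0 % p = ps (m - 1) r1 % p ∧ ps (m - 1) r1 % p = ps (m - 1) r2 % p))
    (χ₁ : MulChar (ZMod 1) k) (χ₂ : MulChar (ZMod (3 ^ K)) k)
    (hprim : χ₂ ((1 + 3 ^ (K - 1) : ℕ) : ZMod (3 ^ K)) ≠ 1) (hpar : χ₁ (-1) * χ₂ (-1) = (-1) ^ m) :
    ∑ a ∈ range (1 * 3 ^ K), χ₁ (a : ZMod 1) * χ₂ (a : ZMod (3 ^ K)) *
      Polynomial.aeval ((a : k) / (1 * 3 ^ K : ℕ)) (FF m) ≠ 0 := by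
  intro hS
  have hp := (Fact.out : p.Prime)
  have hχ : ∀ x : ZMod 1, χ₁ x = 1 := fun x => by rw [Subsingleton.elim x 1, map_one]
  have hnk : ∀ n : ℕ, ¬ p ∣ n → ((n : ℕ) : k) ≠ 0 := fun n hn h =>
    hn ((CharP.cast_eq_zero_iff k p n).1 h)
  have hp3 : ¬ p ∣ 3 := fun h => by
    have := (Nat.prime_dvd_prime_iff_eq hp Nat.prime_three).1 h
    omega
  have h3k : ((3 : ℕ) : k) ≠ 0 := hnk 3 hp3
  have hsq : p ^ 2 % 9 = 4 ∨ p ^ 2 % 9 = 7 := by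
    rw [Nat.pow_mod]
    rcases hp9 with h | h <;> rw [h]
    · exact Or.inl rfl
    · exact Or.inr rfl
  have hge : 1 ≤ p ^ 2 := Nat.one_le_pow _ _ hp.pos
  obtain ⟨u, hu, hu3⟩ : ∃ u, p ^ 2 - 1 = 3 ^ 1 * u ∧ u.Coprime 3 := by
    refine ⟨(p ^ 2 - 1) / 3, by omega, ?_⟩
    rw [Nat.coprime_comm, Nat.Prime.coprime_iff_not_dvd Nat.prime_three]
    omega
  have key := class_zero (p := p) (ℓ := 3) (n := 1) (K := K) (N₁ := 1) (g := 2) (m := m) (u := u) χ₁ χ₂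
    hp2 (Or.inl ⟨rfl, by omega⟩) le_rfl (by omega) (by norm_num) hu hu3
    (fun a => by rw [hχ, one_pow]) hprim (by norm_num) (by norm_num) (by simp) h3k (FF m) _
    (fun x => FF_aeval_refl m x) hpar hS b hb (by simpa using hb1)
  have hξ3 := psi_M_pow (n := 1) χ₂ (by omega)
  rw [pow_one] at hξ3
  set ξ := χ₂ ((1 + 3 ^ (K - 1) : ℕ) : ZMod (3 ^ K)) with hξ
  simp only [hχ, one_mul, pow_one, Finset.sum_range_succ, Finset.sum_range_zero, zero_add, pow_zero,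
    mul_zero, add_zero, mul_one] at key
  have hK3 : ((3 ^ K : ℕ) : k) ≠ 0 := hnk _ fun h => hp3 (hp.dvd_of_dvd_pow h)
  have e0 : ((b : ℕ) : k) / ((3 ^ K : ℕ) : k) = (r0 : k) := by
    rw [div_eq_iff hK3, ← Nat.cast_mul, Nat.mul_comm r0]
    exact ((cast_eq_iff (k := k) (p := p) _ _).2 h0).symm
  have e1 : ((b + 3 ^ (K - 1) : ℕ) : k) / ((3 ^ K : ℕ) : k) = (r1 : k) := by
    rw [div_eq_iff hK3, ← Nat.cast_mul, Nat.mul_comm r1]
    exact ((cast_eq_iff (k := k) (p := p) _ _).2 h1).symm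
  have e2 : ((b + 3 ^ (K - 1) * 2 : ℕ) : k) / ((3 ^ K : ℕ) : k) = (r2 : k) := by
    rw [div_eq_iff hK3, ← Nat.cast_mul, Nat.mul_comm r2]
    exact ((cast_eq_iff (k := k) (p := p) _ _).2 h2).symm
  rw [e0, e1, e2, FF_aeval_nat, FF_aeval_nat, FF_aeval_nat] at key
  have hf : ((m.factorial : ℕ) : k) * m ≠ 0 := by
    refine mul_ne_zero (hnk _ fun h => ?_) (hnk _ fun h => ?_)
    · have := (hp.dvd_factorial).1 h
      omega
    · have := Nat.le_of_dvd (by omega) h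
      omega
  have key2 : ((ps (m - 1) r0 : ℕ) : k) + ξ * (ps (m - 1) r1 : ℕ) + ξ ^ 2 * (ps (m - 1) r2 : ℕ) = 0 := by
    refine (mul_eq_zero.1 (?_ : ((m.factorial : ℕ) : k) * m * _ = 0)).resolve_left hf
    linear_combination key
  obtain ⟨h3, h4⟩ := eq_of_cube (p := p) hξ3 hprim (by omega) _ _ _ key2
  exact hne ⟨(cast_eq_iff (k := k) (p := p) _ _).1 h3, (cast_eq_iff (k := k) (p := p) _ _).1 h4⟩

end

end Pool.Agent.J6H78.GR
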